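import Mathlib
import Pool.Agent.H749.Kak.Five
import Pool.Agent.Results.MP_39d40e_nt.AlmostAllDescent

set_option autoImplicit false

/-!
# Kakutani's `5x+1` map: almost all trajectories come down to a power of the logarithm

The map divides by `2` if possible, otherwise by `3` if possible, and sends `n` to `5 n + 1` if `n` is prime to `6`. There
are `A` and `κ > 0` such that for all `X ≥ 2`, `Y ≥ 1` at most `A X (log X) ^ 16 Y ^ (-κ)` of the `n ≤ X` have a trajectory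
all of whose terms are `≥ Y`. Hence for every `B > 16 / κ` the trajectory of almost every `n` (natural density) comes below
`(log n) ^ B`.

Method. The map is a generalised Collatz map modulo `6` whose multipliers are not prime to `6`. Its Leigh chain consists of the
six residue classes modulo `6`, with stationary distribution `(8, 4, 4, 6, 2, 3) / 27`; so
`Λ ^ 27 = 5 ^ 7 / (2 ^ 14 3 ^ 6) < 1` (`Pool.Agent.H749.Kak.Five`), and the theorem on the classes of Leigh's chain with `Λ < 1`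
(starting file `MP_39d40e_nt/AlmostAllDescent`) applies.
-/

namespace Pool.Agent.Results.MP_a4658c_nt.AlmostAllDescent

open Filter Topology

/-- Kakutani's `5x+1` map: `n/2` if `n` is even, `n/3` if `n` is odd and divisible by `3`, `5n+1` otherwise. -/
def C (n : ℕ) : ℕ := if n % 2 = 0 then n / 2 else if n % 3 = 0 then n / 3 else 5 * n + 1

theorem C_eq : C = Pool.Agent.H749.Kak.C := rfl

/-- the finite sets `{n ≤ X}` -/
theorem fin_le (X : ℝ) (p : ℕ → Prop) : {n : ℕ | 1 ≤ n ∧ (n : ℝ) ≤ X ∧ p n}.Finite := by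
  apply (Set.finite_Icc 1 ⌊X⌋₊).subset
  rintro n ⟨h1, h2, -⟩
  exact ⟨h1, Nat.le_floor h2⟩

open Pool.Agent.H749.Kak Pool.Agent.H319R2.Leigh in
theorem count : ∃ A κ : ℝ, 0 < κ ∧ ∀ X Y : ℝ, 2 ≤ X → 1 ≤ Y →
    ({n : ℕ | 1 ≤ n ∧ (n : ℝ) ≤ X ∧ ∀ k : ℕ, Y ≤ ((C^[k] n : ℕ) : ℝ)}.ncard : ℝ) ≤
      A * X * Real.log X ^ 16 * Y ^ (-κ) := by
  obtain ⟨A, κ, hκ, h⟩ := Pool.Agent.Results.MP_39d40e_nt.AlmostAllDescent.result 6 km kr kb ke kdata kC kρ
    kclass lam_lt_one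
  refine ⟨A, κ, hκ, fun X Y hX hY => ?_⟩
  refine le_trans ?_ (h X Y hX hY)
  have hfin : {x : ℤ | (x ∈ S 6 kC ∧ ∀ n : ℕ, Y ≤ |(((T 6 km kr)^[n] x : ℤ) : ℝ)|) ∧ |(x : ℝ)| ≤ X}.Finite := by
    apply (Set.finite_Icc (-⌈X⌉) ⌈X⌉).subset
    intro y hy
    have h := hy.2
    rw [abs_le] at h
    have h1 := Int.le_ceil X
    constructor
    · have : (-(⌈X⌉ : ℝ)) ≤ y := by linarith
      exact_mod_cast this
    · have : (y : ℝ) ≤ ⌈X⌉ := by linarith
      exact_mod_cast this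
  have h2 : {n : ℕ | 1 ≤ n ∧ (n : ℝ) ≤ X ∧ ∀ k : ℕ, Y ≤ ((C^[k] n : ℕ) : ℝ)}.ncard ≤
      {x : ℤ | (x ∈ S 6 kC ∧ ∀ n : ℕ, Y ≤ |(((T 6 km kr)^[n] x : ℤ) : ℝ)|) ∧ |(x : ℝ)| ≤ X}.ncard := by
    apply Set.ncard_le_ncard_of_injOn (fun n : ℕ => (n : ℤ)) _ _ hfin
    · rintro n ⟨_, h2, h3⟩
      refine ⟨⟨mem_S _, fun k => ?_⟩, ?_⟩
      · rw [iter_eq]
        have := h3 k
        rw [C_eq] at this
        have e : (((Pool.Agent.H749.Kak.C^[k] n : ℕ) : ℤ) : ℝ) = ((Pool.Agent.H749.Kak.C^[k] n : ℕ) : ℝ) := by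
          push_cast; rfl
        rw [e, abs_of_nonneg (by positivity)]
        exact this
      · push_cast
        rw [abs_of_nonneg (by positivity)]
        exact h2
    · intro a _ b _ hab
      have hab' : (a : ℤ) = (b : ℤ) := hab
      exact_mod_cast hab'
  exact_mod_cast h2

/-- There are `A` and `κ > 0` such that:

* for all `X ≥ 2` and `Y ≥ 1` at most `A X (log X) ^ 16 Y ^ (-κ)` of the positive integers `n ≤ X` have a trajectory
  under Kakutani's `5x+1` map all of whose terms are at least `Y`;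
* for every `B > 16 / κ` the positive integers `n` whose trajectory never comes below `(log n) ^ B` have natural
  density zero. -/
theorem result : ∃ A κ : ℝ, 0 < κ ∧
    (∀ X Y : ℝ, 2 ≤ X → 1 ≤ Y →
      ({n : ℕ | 1 ≤ n ∧ (n : ℝ) ≤ X ∧ ∀ k : ℕ, Y ≤ ((C^[k] n : ℕ) : ℝ)}.ncard : ℝ) ≤
        A * X * Real.log X ^ 16 * Y ^ (-κ)) ∧
    (∀ B : ℝ, 16 / κ < B →
      Tendsto (fun N : ℕ => ({n : ℕ | 1 ≤ n ∧ n ≤ N ∧
        ∀ k : ℕ, Real.log n ^ B ≤ ((C^[k] n : ℕ) : ℝ)}.ncard : ℝ) / N) atTop (𝓝 0)) := by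
  obtain ⟨A, κ, hκ, h⟩ := count
  refine ⟨A, κ, hκ, h, ?_⟩
  intro B hB
  have hB0 : 0 < B := lt_trans (by positivity) hB
  have hκB : 16 < κ * B := by
    rw [div_lt_iff₀ hκ] at hB
    linarith
  -- the bound: split at √N
  set A' : ℝ := max A 0 with hA'
  have hA0 : 0 ≤ A' := le_max_right _ _
  have bound : ∀ᶠ N : ℕ in atTop, ({n : ℕ | 1 ≤ n ∧ n ≤ N ∧
        ∀ k : ℕ, Real.log n ^ B ≤ ((C^[k] n : ℕ) : ℝ)}.ncard : ℝ) / N ≤
      Real.sqrt N / N + A' * (2 : ℝ) ^ (κ * B) * Real.log N ^ (16 - κ * B) := by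
    filter_upwards [eventually_ge_atTop 10000] with N hN
    have hNR : (10000 : ℝ) ≤ N := by exact_mod_cast hN
    have hN0 : (0 : ℝ) < N := by linarith
    have hlog : 2 ≤ Real.log N := by
      rw [Real.le_log_iff_exp_le hN0]
      have h1 : Real.exp 2 = Real.exp 1 * Real.exp 1 := by rw [← Real.exp_add]; norm_num
      have h2 := Real.exp_one_lt_d9
      have h3 := Real.exp_pos 1
      rw [h1]
      nlinarith
    set Y : ℝ := (Real.log N / 2) ^ B with hY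
    have hY1 : 1 ≤ Y := Real.one_le_rpow (by linarith) hB0.le
    have hsub : {n : ℕ | 1 ≤ n ∧ n ≤ N ∧ ∀ k : ℕ, Real.log n ^ B ≤ ((C^[k] n : ℕ) : ℝ)} ⊆
        {n : ℕ | 1 ≤ n ∧ (n : ℝ) ≤ Real.sqrt N ∧ True} ∪
        {n : ℕ | 1 ≤ n ∧ (n : ℝ) ≤ N ∧ ∀ k : ℕ, Y ≤ ((C^[k] n : ℕ) : ℝ)} := by
      rintro n ⟨h1, h2, h3⟩
      by_cases hn : (n : ℝ) ≤ Real.sqrt N
      · exact Or.inl ⟨h1, hn, trivial⟩
      · right
        refine ⟨h1, by exact_mod_cast h2, fun k => le_trans ?_ (h3 k)⟩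
        push Not at hn
        have h4 : Real.log (Real.sqrt N) ≤ Real.log n := Real.log_le_log (Real.sqrt_pos.2 hN0) hn.le
        rw [Real.log_sqrt hN0.le] at h4
        exact Real.rpow_le_rpow (by linarith) h4 hB0.le
    have hc1 : ({n : ℕ | 1 ≤ n ∧ (n : ℝ) ≤ Real.sqrt N ∧ True}.ncard : ℝ) ≤ Real.sqrt N := by
      have : {n : ℕ | 1 ≤ n ∧ (n : ℝ) ≤ Real.sqrt N ∧ True}.ncard ≤ ⌊Real.sqrt N⌋₊ := by
        have hs : {n : ℕ | 1 ≤ n ∧ (n : ℝ) ≤ Real.sqrt N ∧ True} ⊆ ((Finset.Icc 1 ⌊Real.sqrt N⌋₊ : Finset ℕ) : Set ℕ) := by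
          rintro n ⟨h1, h2, -⟩
          rw [Finset.mem_coe, Finset.mem_Icc]
          exact ⟨h1, Nat.le_floor h2⟩
        have := Set.ncard_le_ncard hs (Finset.finite_toSet _)
        rw [Set.ncard_coe_finset, Nat.card_Icc] at this
        omega
      exact le_trans (by exact_mod_cast this) (Nat.floor_le (Real.sqrt_nonneg _))
    have hc2 := h N Y (by linarith) hY1
    have hc : ({n : ℕ | 1 ≤ n ∧ n ≤ N ∧ ∀ k : ℕ, Real.log n ^ B ≤ ((C^[k] n : ℕ) : ℝ)}.ncard : ℝ) ≤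
        Real.sqrt N + A' * N * Real.log N ^ 16 * Y ^ (-κ) := by
      have h5 := Set.ncard_le_ncard hsub ((fin_le _ _).union (fin_le _ _))
      have h6 := Set.ncard_union_le {n : ℕ | 1 ≤ n ∧ (n : ℝ) ≤ Real.sqrt N ∧ True}
        {n : ℕ | 1 ≤ n ∧ (n : ℝ) ≤ N ∧ ∀ k : ℕ, Y ≤ ((C^[k] n : ℕ) : ℝ)}
      have h7 : ({n : ℕ | 1 ≤ n ∧ n ≤ N ∧ ∀ k : ℕ, Real.log n ^ B ≤ ((C^[k] n : ℕ) : ℝ)}.ncard : ℝ) ≤
          ({n : ℕ | 1 ≤ n ∧ (n : ℝ) ≤ Real.sqrt N ∧ True}.ncard : ℝ) +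
          ({n : ℕ | 1 ≤ n ∧ (n : ℝ) ≤ N ∧ ∀ k : ℕ, Y ≤ ((C^[k] n : ℕ) : ℝ)}.ncard : ℝ) := by
        exact_mod_cast h5.trans h6
      have h8 : A * N * Real.log N ^ 16 * Y ^ (-κ) ≤ A' * N * Real.log N ^ 16 * Y ^ (-κ) := by
        have : (0 : ℝ) ≤ N * Real.log N ^ 16 * Y ^ (-κ) := by positivity
        have h9 : A ≤ A' := le_max_left _ _
        nlinarith
      linarith
    have hYk : Y ^ (-κ) = (2 : ℝ) ^ (κ * B) * Real.log N ^ (-(κ * B)) := by
      rw [hY, ← Real.rpow_mul (by linarith), Real.div_rpow (by linarith) (by norm_num)]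
      have e1 : B * -κ = -(κ * B) := by ring
      rw [e1, Real.rpow_neg (by norm_num : (0 : ℝ) ≤ 2), div_inv_eq_mul, mul_comm]
    have hpow : Real.log N ^ 16 * Real.log N ^ (-(κ * B)) = Real.log N ^ (16 - κ * B) := by
      rw [← Real.rpow_natCast, ← Real.rpow_add (by linarith)]
      congr 1
    rw [div_le_iff₀ hN0]
    calc _ ≤ Real.sqrt N + A' * N * Real.log N ^ 16 * Y ^ (-κ) := hc
      _ = (Real.sqrt N / N + A' * (2 : ℝ) ^ (κ * B) * (Real.log N ^ 16 * Real.log N ^ (-(κ * B)))) * N := by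
        rw [hYk]; field_simp
      _ = _ := by rw [hpow]
  have lim1 : Tendsto (fun N : ℕ => Real.sqrt N / N) atTop (𝓝 0) := by
    have e : (fun N : ℕ => Real.sqrt N / N) = fun N : ℕ => (Real.sqrt N)⁻¹ := by
      funext N
      rcases Nat.eq_zero_or_pos N with h0 | h0
      · subst h0; simp
      · have : (0 : ℝ) < N := by exact_mod_cast h0
        rw [Real.sqrt_div_self', one_div]
    rw [e]
    exact (tendsto_inv_atTop_zero.comp (Real.tendsto_sqrt_atTop.comp tendsto_natCast_atTop_atTop))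
  have lim2 : Tendsto (fun N : ℕ => Real.log N ^ (16 - κ * B)) atTop (𝓝 0) := by
    have e : 16 - κ * B = -(κ * B - 16) := by ring
    rw [e]
    exact ((tendsto_rpow_neg_atTop (by linarith)).comp Real.tendsto_log_atTop).comp tendsto_natCast_atTop_atTop
  have lim : Tendsto (fun N : ℕ => Real.sqrt N / N + A' * (2 : ℝ) ^ (κ * B) * Real.log N ^ (16 - κ * B))
      atTop (𝓝 0) := by
    have := lim1.add (lim2.const_mul (A' * (2 : ℝ) ^ (κ * B)))
    simpa using this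
  exact squeeze_zero' (Eventually.of_forall fun N => by positivity) bound lim

end Pool.Agent.Results.MP_a4658c_nt.AlmostAllDescent
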